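import Pool.Agent.H11.StrK

namespace H11.StrK
open Finset H11.Str

/-- `S` is in general position and has a stretched path `p 0, ..., p (n-1)`. -/
def SPath (S : Finset (ℝ × ℝ)) : Prop :=
  GenPos S ∧ ∃ (n : ℕ) (p : Fin n → ℝ × ℝ), Function.Injective p ∧ Set.range p = S ∧
    (∀ h : 0 < n, p ⟨0, h⟩ ∉ convexHull ℝ ((S : Set (ℝ × ℝ)) \ {p ⟨0, h⟩})) ∧
    ∀ i i' j k : Fin n, (i' : ℕ) = i + 1 → i' < j → i' < k → j ≠ k →
      ¬ (det (p j) (p k) (p i) * det (p j) (p k) (p i') < 0)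

/-- not stretched, while all proper subconfigurations are -/
def Obstacle (S : Finset (ℝ × ℝ)) : Prop := ¬ SPath S ∧ ∀ T ⊂ S, SPath T

lemma tri_mem {a b c q : ℝ × ℝ} (s : Set (ℝ × ℝ)) (ha : a ∈ s) (hb : b ∈ s) (hc : c ∈ s)
    (h1 : 0 < det a b q) (h2 : 0 < det b c q) (h3 : 0 < det c a q) : q ∈ convexHull ℝ s := by
  have hD : 0 < det a b q + det b c q + det c a q := by linarith
  refine mem_convexHull_of_exists_fintype (ι := Fin 3)
    (![det b c q, det c a q, det a b q] / fun _ => det a b q + det b c q + det c a q)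
    ![a, b, c] (fun i => ?_) ?_ (fun i => ?_) ?_
  · fin_cases i <;> simp <;> positivity
  · simp [Fin.sum_univ_three]; field_simp; ring
  · fin_cases i <;> simpa
  · ext <;> simp [Fin.sum_univ_three] <;> field_simp <;> unfold det <;> ring

lemma unb_of_path {S : Finset (ℝ × ℝ)} (hS : SPath S) (hne : S.Nonempty) : ∃ q ∈ S, Unb S q := by
  classical
  obtain ⟨gp, n, p, inj, hr, hh, hp⟩ := hS
  have mem : ∀ i, p i ∈ S := fun i => by rw [← mem_coe, ← hr]; exact ⟨i, rfl⟩
  have sur : ∀ a ∈ S, ∃ i, p i = a := fun a ha => by rw [← mem_coe, ← hr] at ha; exact ha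
  have hn : 0 < n := by
    obtain ⟨a, ha⟩ := hne; obtain ⟨i, -⟩ := sur a ha; exact i.pos
  refine ⟨p ⟨0, hn⟩, mem _, fun r hrS hb => ?_⟩
  have sgn : ∀ j k : Fin n, 0 < det (p j) (p k) (p ⟨0, hn⟩) → ∀ m (hm : m < n), m < j → m < k →
      0 < det (p j) (p k) (p ⟨m, hm⟩) := by
    intro j k h0 m
    have hjk : j ≠ k := fun e => dq3 h0 (by rw [e])
    induction m with
    | zero => intro _ _ _; exact h0
    | succ m ih =>
      intro hm h1 h2
      have a1 := ih (by omega) (by omega) (by omega)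
      have a2 := hp ⟨m, by omega⟩ ⟨m+1, hm⟩ j k rfl h1 h2 hjk
      have a3 := gp _ (mem j) _ (mem k) _ (mem ⟨m+1, hm⟩) (inj.ne hjk)
        (inj.ne (ne_of_gt (show (⟨m+1, hm⟩ : Fin n) < j from h1)))
        (inj.ne (ne_of_gt (show (⟨m+1, hm⟩ : Fin n) < k from h2)))
      rcases lt_or_gt_of_ne a3 with l | l
      · exact absurd (mul_neg_of_pos_of_neg a1 l) a2
      · exact l
  rcases hb with ⟨h1, h2, h3⟩ | ⟨h1, h2, h3, h4, h5, h6⟩
  · exact hh hn (tri_mem _ ⟨hrS 0 (by omega), dq1 h1⟩ ⟨hrS 1 (by omega), dq1 h2⟩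
      ⟨hrS 2 (by omega), dq1 h3⟩ h1 h2 h3)
  · choose ix hix using fun i : Fin 6 => sur _ (hrS i i.2)
    obtain ⟨i, -, hmin⟩ := univ.exists_min_image ix univ_nonempty
    have fin : ∀ a b : Fin 6, 0 < det (r a) (r b) (p ⟨0, hn⟩) → 0 < det (r b) (r a) (r i) →
        False := by
      intro a b d1 d2
      have na : ix i < ix a := lt_of_le_of_ne (hmin a (mem_univ _)) fun e =>
        dq2 d2 (by rw [← hix a, ← hix i, e])
      have nb : ix i < ix b := lt_of_le_of_ne (hmin b (mem_univ _)) fun e =>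
        dq1 d2 (by rw [← hix b, ← hix i, e])
      have := sgn (ix a) (ix b) (by rw [hix, hix]; exact d1) (ix i) (ix i).2 na nb
      rw [hix, hix, Fin.eta, hix, det_swap] at this
      linarith
    by_cases c0 : r i = r 0
    · exact fin 2 3 h1 (c0 ▸ h2)
    by_cases c1 : r i = r 1
    · exact fin 4 5 h3 (c1 ▸ h4)
    refine fin 0 1 h5 (h6 i ?_ (by omega) c0 c1)
    by_contra hlt
    have : (i : ℕ) = 0 ∨ (i : ℕ) = 1 := by omega
    rcases this with e | e
    · exact c0 (by rw [e])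
    · exact c1 (by rw [e])

lemma path_of_unb {S : Finset (ℝ × ℝ)} {q : ℝ × ℝ} (gp : GenPos S) (hq : q ∈ S) (hb : Unb S q) :
    SPath S := by
  classical
  obtain ⟨x, h, ix, ih, top, hh⟩ := coords gp hq hb
  set e := S.equivFin.symm with he
  set σ := Tuple.sort (fun i => - h (e i)) with hσ
  have mono : Monotone ((fun i => - h (e i)) ∘ σ) := Tuple.monotone_sort _
  set p : Fin S.card → ℝ × ℝ := fun i => e (σ i) with hp
  have inj : Function.Injective p := Subtype.val_injective.comp (e.injective.comp σ.injective)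
  have mem : ∀ i, p i ∈ S := fun i => (e (σ i)).2
  have sur : ∀ a ∈ S, ∃ i, p i = a := fun a ha => ⟨σ.symm (e.symm ⟨a, ha⟩), by simp [hp]⟩
  have anti : ∀ i j, i < j → h (p j) < h (p i) := fun i j l => by
    have := mono l.le
    simp only [Function.comp, neg_le_neg_iff] at this
    exact lt_of_le_of_ne this fun e => l.ne' (inj (ih (mem j) (mem i) e))
  refine ⟨gp, S.card, p, inj, ?_, ?_, ?_⟩
  · ext a; exact ⟨fun ⟨i, hi⟩ => hi ▸ mem i, sur a⟩
  · intro hn
    have p0 : p ⟨0, hn⟩ = q := by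
      obtain ⟨i, hi⟩ := sur q hq
      by_contra hne
      have : (⟨0, hn⟩ : Fin S.card) < i := lt_of_le_of_ne (Nat.zero_le _) fun e =>
        hne (by rw [e, hi])
      have a1 := anti _ _ this
      rw [hi] at a1
      exact absurd (top _ (mem _)) (not_le.2 a1)
    rw [p0]
    have low : ∀ a ∈ S.erase q, h a < h q := fun a ha =>
      lt_of_le_of_ne (top a (mem_of_mem_erase ha)) fun e =>
        (mem_erase.1 ha).1 (ih (mem_of_mem_erase ha) hq e)
    have dp : ∀ a ∈ S.erase q, ∀ b ∈ S.erase q, x a ≤ x b → a ≠ b → 0 < det a b q :=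
      fun a ha b hb' l ne => hh a (mem_of_mem_erase ha) b (mem_of_mem_erase hb') q hq (low a ha)
        (low b hb') (lt_of_le_of_ne l fun e => ne (ix (mem_of_mem_erase ha)
          (mem_of_mem_erase hb') e))
    have dn : ∀ a ∈ S.erase q, ∀ b ∈ S.erase q, x a ≤ x b → 0 ≤ det a b q := fun a ha b hb' l => by
      by_cases ne : a = b
      · rw [ne, det_self]
      · exact (dp a ha b hb' l ne).le
    rw [← coe_erase]
    rcases (S.erase q).eq_empty_or_nonempty with h0 | hne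
    · simp [h0]
    obtain ⟨a, ha, hmin⟩ := (S.erase q).exists_min_image x hne
    obtain ⟨z, hz, hmax⟩ := (S.erase q).exists_max_image x hne
    by_cases c : a = z
    · intro hm
      have : convexHull ℝ ((S.erase q : Finset _) : Set (ℝ × ℝ)) ⊆ {a} :=
        convexHull_min (fun b hb' => ix (mem_of_mem_erase hb') (mem_of_mem_erase ha)
          (le_antisymm (c ▸ hmax b hb') (hmin b hb'))) (convex_singleton a)
      exact (mem_erase.1 ha).1 (this hm).symm
    · intro hm
      have cv : Convex ℝ {b : ℝ × ℝ | 0 < det a b q + det b z q} := by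
        intro u hu v hv α β h1 h2 h3
        simp only [Set.mem_setOf_eq] at hu hv ⊢
        have : det a (α • u + β • v) q + det (α • u + β • v) z q
            = α * (det a u q + det u z q) + β * (det a v q + det v z q) := by
          have : β = 1 - α := by linarith
          subst this
          simp [det]; ring
        rw [this]
        rcases h1.lt_or_eq with l | l
        · have := mul_pos l hu; have := mul_nonneg h2 hv.le; linarith
        · rw [← l] at h3 ⊢; rw [zero_add] at h3; rw [h3]; linarith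
      have := convexHull_min (fun b (hb' : b ∈ ((S.erase q : Finset _) : Set (ℝ × ℝ))) =>
        show b ∈ {b : ℝ × ℝ | 0 < det a b q + det b z q} from by
          simp only [Set.mem_setOf_eq]
          by_cases c2 : a = b
          · have := dp b hb' z hz (hmax b hb') (c2 ▸ c)
            have := dn a ha b hb' (hmin b hb'); linarith
          · have := dp a ha b hb' (hmin b hb') c2
            have := dn b hb' z hz (hmax b hb'); linarith) cv hm
      simp [det] at this
      linarith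
  · intro i i' j k h1 h2 h3 h4
    have l0 : i < i' := by rw [Fin.lt_def]; omega
    have a1 := anti _ _ h2
    have a2 := anti _ _ h3
    have a3 := anti _ _ l0
    rcases lt_trichotomy (x (p j)) (x (p k)) with l | l | l
    · exact not_lt.2 (mul_pos (hh _ (mem j) _ (mem k) _ (mem i) (a1.trans a3) (a2.trans a3) l)
        (hh _ (mem j) _ (mem k) _ (mem i') a1 a2 l)).le
    · exact absurd (inj (ix (mem j) (mem k) l)) h4
    · have := mul_pos (hh _ (mem k) _ (mem j) _ (mem i) (a2.trans a3) (a1.trans a3) l)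
        (hh _ (mem k) _ (mem j) _ (mem i') a2 a1 l)
      rw [det_swap (p j) (p k), det_swap (p j) (p k)] at this
      linarith

lemma unb_mono {S T : Finset (ℝ × ℝ)} {q : ℝ × ℝ} (h : T ⊆ S) (hb : Unb S q) : Unb T q :=
  fun r hr => hb r fun i hi => h (hr i hi)

lemma gp_mono {S T : Finset (ℝ × ℝ)} (h : T ⊆ S) (gp : GenPos S) : GenPos T :=
  fun a ha b hb c hc => gp a (h ha) b (h hb) c (h hc)

end H11.StrK

open H11.StrK H11.Str Finset in
theorem Pool.Agent.Results.MP_0ff5c6_co.Bounded.result :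
    ∀ S : Finset (ℝ × ℝ), Obstacle S → S.card ≤ 120 := by
  classical
  rintro S ⟨hS, hsub⟩
  by_contra hcard
  push Not at hcard
  have gp : GenPos S := by
    intro a ha b hb c hc h1 h2 h3
    have sub : ({a, b, c} : Finset _) ⊆ S := by
      intro z hz; simp only [mem_insert, mem_singleton] at hz
      rcases hz with rfl | rfl | rfl <;> assumption
    have ss : ({a, b, c} : Finset _) ⊂ S := ⟨sub, fun h => by
      have := (card_le_card h).trans card_le_three; omega⟩
    exact (hsub _ ss).1 a (by simp) b (by simp) c (by simp) h1 h2 h3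
  have blk : ∀ q, ∃ r : ℕ → ℝ × ℝ, q ∈ S → (∀ i < 6, r i ∈ S) ∧ BlkD Pos q r := by
    intro q
    by_cases hq : q ∈ S
    · by_contra hcon
      push Not at hcon
      exact hS (path_of_unb gp hq fun r hr => (hcon r).2 hr)
    · exact ⟨fun _ => q, fun h => absurd h hq⟩
  choose r hr using blk
  have tops : ∀ y, ∃ t, y ∈ S → t ∈ S.erase y ∧ Unb (S.erase y) t := by
    intro y
    by_cases hy : y ∈ S
    · obtain ⟨t, h1, h2⟩ := unb_of_path (hsub _ (erase_ssubset hy))
        (card_pos.1 (by rw [card_erase_of_mem hy]; omega))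
      exact ⟨t, fun _ => ⟨h1, h2⟩⟩
    · exact ⟨y, fun h => absurd h hy⟩
  choose t ht using tops
  set F : ℝ × ℝ → Finset (ℝ × ℝ) := fun y => insert (t y) ((range 6).image (r (t y))) with hF
  have hFc : ∀ y, (F y).card ≤ 7 := fun y =>
    (card_insert_le _ _).trans (Nat.succ_le_succ (card_image_le.trans (by simp)))
  have tS : ∀ y ∈ S, t y ∈ S := fun y hy => mem_of_mem_erase (ht y hy).1
  have self : ∀ y ∈ S, y ∈ F y := by
    intro y hy
    by_contra hcon
    refine (ht y hy).2 (r (t y)) (fun i hi => mem_erase.2 ⟨fun e => hcon ?_,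
      (hr _ (tS y hy)).1 i hi⟩) (hr _ (tS y hy)).2
    exact mem_insert_of_mem (mem_image.2 ⟨i, mem_range.2 hi, e⟩)
  obtain ⟨I, hI, hIc, hind⟩ := indep F hFc 8 S (by omega)
  obtain ⟨ys, hys⟩ : I.Nonempty := card_pos.1 (by omega)
  have n1 : ∀ i ∈ I, ∀ j ∈ I, i ≠ j → t j ≠ i := fun i hi j hj hij e =>
    hind i hi j hj hij (e ▸ mem_insert_self _ _)
  have n2 : ∀ i ∈ I, ∀ j ∈ I, i ≠ j → ∀ k < 6, r (t j) k ≠ i := fun i hi j hj hij k hk e =>
    hind i hi j hj hij (mem_insert_of_mem (mem_image.2 ⟨k, mem_range.2 hk, e⟩))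
  have n3 : ∀ i ∈ I, ∀ j ∈ I, i ≠ j → t i ≠ t j := fun i hi j hj hij e =>
    hind i hi j hj hij (by have := self i (hI hi); simp only [hF] at this ⊢; rwa [← e])
  set q := t ys with hq
  obtain ⟨x, h, ix, ih, top, hh⟩ := coords (gp_mono (erase_subset ys S) gp) (ht ys (hI hys)).1
    (ht ys (hI hys)).2
  have hqT : q ∈ S.erase ys := (ht ys (hI hys)).1
  set J := I.erase ys with hJ
  have JI : ∀ y ∈ J, y ∈ I ∧ y ≠ ys := fun y hy => ⟨mem_of_mem_erase hy, (mem_erase.1 hy).1⟩
  have tT : ∀ y ∈ J, t y ∈ S.erase ys := fun y hy =>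
    mem_erase.2 ⟨n1 ys hys y (JI y hy).1 (JI y hy).2.symm, tS y (hI (JI y hy).1)⟩
  have tlt : ∀ y ∈ J, h (t y) < h q := fun y hy => lt_of_le_of_ne (top _ (tT y hy)) fun e =>
    n3 y (JI y hy).1 ys hys (JI y hy).2 (ih (tT y hy) hqT e)
  -- the main step, for either orientation
  have main : ∀ (x' : ℝ × ℝ → ℝ) (D : ℝ × ℝ → ℝ × ℝ → ℝ × ℝ → Prop),
      (∀ a b c, D a b c → D b c a) → (∀ a b c, D a b c → ¬ D b a c) →
      Set.InjOn x' (S.erase ys : Finset _) →
      (∀ a ∈ S.erase ys, ∀ b ∈ S.erase ys, ∀ c ∈ S.erase ys, h a < h c → h b < h c → x' a < x' b →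
        D a b c) →
      (∀ y ∈ J, ∃ g : ℝ × ℝ → ℝ, Set.InjOn g (S.erase y : Finset _) ∧
        (∀ a ∈ S.erase y, g a ≤ g (t y)) ∧ ∀ a ∈ S.erase y, ∀ b ∈ S.erase y, ∀ c ∈ S.erase y,
          D a b (t y) → g a < g c → g b < g c → D a b c) →
      (∀ y ∈ J, ∃ r' : ℕ → ℝ × ℝ, (∀ i < 6, ∃ j < 6, r' i = r (t y) j) ∧ BlkD D (t y) r') →
      (J.filter fun y => ∀ p ∈ S.erase ys, p ≠ y → x' p < x' (t y) → ¬ h p < h (t y)).card ≤ 3 := by
    intro x' D cyc asym ix' hD hg hb
    by_contra hc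
    obtain ⟨y0, a0, y1, a1, y2, a2, y3, a3, o1, o2, o3⟩ := four _ (Nat.succ_le_of_lt (not_le.1 hc))
      (fun y => h (t y)) (fun i hi j hj e => by
        have hi := (mem_filter.1 hi).1
        have hj := (mem_filter.1 hj).1
        by_contra hne
        exact n3 i (JI i hi).1 j (JI j hj).1 hne (ih (tT i hi) (tT j hj) e))
    obtain ⟨j0, l0⟩ := mem_filter.1 a0
    obtain ⟨j1, l1⟩ := mem_filter.1 a1
    obtain ⟨j2, l2⟩ := mem_filter.1 a2
    obtain ⟨j3, l3⟩ := mem_filter.1 a3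
    have d : ∀ a b, h (t a) < h (t b) → a ≠ b := fun a b l e => by
      rw [e] at l; exact lt_irrefl _ l
    set T := ((S.erase ys).erase y1).erase y3 with hT
    have s0 : T ⊆ S.erase ys := (erase_subset _ _).trans (erase_subset _ _)
    have s1 : T ⊆ S.erase y1 := (erase_subset _ _).trans (erase_subset_erase _ (erase_subset _ _))
    have s3 : T ⊆ S.erase y3 := erase_subset_erase _ ((erase_subset _ _).trans (erase_subset _ _))
    have mT : ∀ z, z ∈ S.erase ys → z ≠ y1 → z ≠ y3 → z ∈ T := fun z b1 b2 b3 =>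
      mem_erase.2 ⟨b3, mem_erase.2 ⟨b2, b1⟩⟩
    have tne : ∀ y ∈ J, ∀ y' ∈ J, t y ≠ y' := fun y hy y' hy' => by
      by_cases e : y' = y
      · rw [e]; exact (mem_erase.1 (ht y (hI (JI y hy).1)).1).1
      · exact n1 y' (JI y' hy').1 y (JI y hy).1 e
    have wT : ∀ y ∈ J, t y ∈ T := fun y hy => mT _ (tT y hy) (tne y hy y1 j1) (tne y hy y3 j3)
    have rT : ∀ y ∈ J, y1 ≠ y → y3 ≠ y → ∀ r' : ℕ → ℝ × ℝ, (∀ i < 6, ∃ j < 6, r' i = r (t y) j) →
        ∀ i < 6, r' i ∈ T := by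
      intro y hy e1 e3 r' hr' i hi
      obtain ⟨k, hk, e⟩ := hr' i hi
      rw [e]
      exact mT _ (mem_erase.2 ⟨n2 ys hys y (JI y hy).1 (JI y hy).2.symm k hk,
        (hr _ (tS y (hI (JI y hy).1))).1 k hk⟩) (n2 y1 (JI y1 j1).1 y (JI y hy).1 e1 k hk)
        (n2 y3 (JI y3 j3).1 y (JI y hy).1 e3 k hk)
    have xl : ∀ y ∈ J, ∀ y' ∈ J, (∀ p ∈ S.erase ys, p ≠ y → x' p < x' (t y) → ¬ h p < h (t y)) →
        h (t y') < h (t y) → x' (t y) < x' (t y') := by
      intro y hy y' hy' l o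
      rcases lt_trichotomy (x' (t y)) (x' (t y')) with c | c | c
      · exact c
      · rw [ix' (tT y hy) (tT y' hy') c] at o; exact absurd o (lt_irrefl _)
      · exact absurd o (l _ (tT y' hy') (tne y' hy' y hy) c)
    obtain ⟨gu, u1, u2, u3⟩ := hg y1 j1
    obtain ⟨gv, v1, v2, v3⟩ := hg y3 j3
    obtain ⟨r0, b0, c0⟩ := hb y0 j0
    obtain ⟨r2, b2, c2⟩ := hb y2 j2
    exact key (T : Set (ℝ × ℝ)) D x' h gu gv q (t y0) (t y1) (t y2) (t y3) r0 r2 cyc asym
      (ix'.mono s0) (ih.mono s0) (u1.mono s1) (v1.mono s3)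
      (mT q hqT (n1 y1 (JI y1 j1).1 ys hys (JI y1 j1).2) (n1 y3 (JI y3 j3).1 ys hys (JI y3 j3).2))
      (wT y0 j0) (wT y1 j1) (wT y2 j2) (wT y3 j3)
      (rT y0 j0 (d _ _ o1) (d _ _ (o3.trans (o2.trans o1))) r0 b0)
      (rT y2 j2 (d _ _ o2).symm (d _ _ o3) r2 b2)
      (fun a ha b hb c hc => hD a (s0 ha) b (s0 hb) c (s0 hc))
      (fun a ha b hb c hc => u3 a (s1 ha) b (s1 hb) c (s1 hc))
      (fun a ha b hb c hc => v3 a (s3 ha) b (s3 hb) c (s3 hc))
      (fun a ha => top a (s0 ha)) (fun a ha => u2 a (s1 ha)) (fun a ha => v2 a (s3 ha))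
      (fun a ha => l1 a (s0 ha) (mem_erase.1 (s1 ha)).1)
      (fun a ha => l3 a (s0 ha) (mem_erase.1 (s3 ha)).1)
      (tlt y0 j0) o1 o2 o3 (xl y0 j0 y1 j1 l0 o1) (xl y2 j2 y3 j3 l2 o3) c0 c2
  have cg : ∀ y ∈ J, ∃ g : ℝ × ℝ → ℝ, Set.InjOn g (S.erase y : Finset _) ∧
      (∀ a ∈ S.erase y, g a ≤ g (t y)) ∧ ∀ a ∈ S.erase y, ∀ b ∈ S.erase y, ∀ c ∈ S.erase y,
        0 < det a b (t y) → g a < g c → g b < g c → 0 < det a b c := fun y hy =>
    coords' (gp_mono (erase_subset y S) gp) (ht y (hI (JI y hy).1)).1 (ht y (hI (JI y hy).1)).2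
  have m1 := main x Pos (fun a b c h => by unfold Pos at *; rwa [det_cyc])
    (fun a b c h => by unfold Pos at *; rw [det_swap]; linarith) ix hh cg
    (fun y hy => ⟨r (t y), fun i hi => ⟨i, hi, rfl⟩, (hr _ (tS y (hI (JI y hy).1))).2⟩)
  have m2 := main (fun p => - x p) (fun a b c => Pos b a c)
    (fun a b c h => by unfold Pos at *; rwa [← det_cyc])
    (fun a b c h => by unfold Pos at *; rw [det_swap] at h; linarith)
    (fun a ha b hb e => ix ha hb (neg_injective e))
    (fun a ha b hb c hc h1 h2 h3 => hh b hb a ha c hc h2 h1 (by linarith))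
    (fun y hy => by
      obtain ⟨g, g1, g2, g3⟩ := cg y hy
      exact ⟨g, g1, g2, fun a ha b hb c hc h1 h2 h3 => g3 b hb a ha c hc h1 h3 h2⟩)
    (fun y hy => blk_swap (hr _ (tS y (hI (JI y hy).1))).2)
  have cov : J ⊆ (J.filter fun y => ∀ p ∈ S.erase ys, p ≠ y → x p < x (t y) → ¬ h p < h (t y)) ∪
      (J.filter fun y => ∀ p ∈ S.erase ys, p ≠ y → - x p < - x (t y) → ¬ h p < h (t y)) := by
    intro y hy
    simp only [mem_union, mem_filter, hy, true_and]
    by_contra hcon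
    push Not at hcon
    obtain ⟨⟨a, ha, a1, a2, a3⟩, ⟨c, hc, c1, c2, c3⟩⟩ := hcon
    have w := tlt y hy
    refine (ht y (hI (JI y hy).1)).2 (fun i => if i = 0 then a else if i = 1 then c else q)
      (fun i _ => ?_) (Or.inl ⟨?_, ?_, ?_⟩)
    · split_ifs
      · exact mem_erase.2 ⟨a1, mem_of_mem_erase ha⟩
      · exact mem_erase.2 ⟨c1, mem_of_mem_erase hc⟩
      · exact mem_erase.2 ⟨n1 y (JI y hy).1 ys hys (JI y hy).2, mem_of_mem_erase hqT⟩
    · exact hh a ha c hc _ (tT y hy) a3 c3 (by linarith)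
    · have := hh _ (tT y hy) c hc q hqT w (c3.trans w) (by linarith)
      show 0 < det c q (t y)
      rwa [det_cyc]
    · have := hh a ha _ (tT y hy) q hqT (a3.trans w) w a2
      show 0 < det q a (t y)
      rwa [← det_cyc]
  have c1 := (card_le_card cov).trans (card_union_le _ _)
  have c2 : J.card = 7 := by rw [hJ, card_erase_of_mem hys, hIc]
  omega
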